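import Mathlib

namespace Pool.Agent.Results.MP_dc2775_an.ZeroOne

open Set Filter Topology

/-- The partial sum `∑_{n < N, n ∈ B} x_n`. -/
noncomputable def P (x : ℕ → ℝ) (B : Set ℕ) (N : ℕ) : ℝ :=
  ∑ n ∈ Finset.range N, B.indicator x n

/-- The sums `∑_{n ∈ B} x_n` (in the natural order) over the sets `B ∈ F` for which the
subseries converges. -/
def ach (x : ℕ → ℝ) (F : Set (Set ℕ)) : Set ℝ :=
  {s | ∃ B ∈ F, Tendsto (P x B) atTop (𝓝 s)}

/-- Ideals on `ℕ` containing all finite sets. -/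
def IsIdeal (I : Set (Set ℕ)) : Prop :=
  (∀ A ∈ I, ∀ B ∈ I, A ∪ B ∈ I) ∧ (∀ A ∈ I, ∀ B, B ⊆ A → B ∈ I) ∧ univ ∉ I ∧
    ∀ A : Set ℕ, A.Finite → A ∈ I

def glue (C : Set ℕ) (j : ℕ) (B : Set ℕ) : Set ℕ := {n | (n < j ∧ n ∈ C) ∨ (j ≤ n ∧ n ∈ B)}

lemma glue_mem {I : Set (Set ℕ)} (hI : IsIdeal I) {B : Set ℕ} (hB : B ∈ I) (C : Set ℕ) (j : ℕ) :
    glue C j B ∈ I :=
  hI.2.1 _ (hI.1 _ (hI.2.2.2 _ (finite_Iio j)) _ hB) _ fun _ h => h.elim (fun h => Or.inl h.1)
    fun h => Or.inr h.2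

variable {x : ℕ → ℝ}

lemma ind_glue_lt (C B : Set ℕ) {j n : ℕ} (h : n < j) :
    (glue C j B).indicator x n = C.indicator x n := by
  by_cases hc : n ∈ C
  · rw [indicator_of_mem hc, indicator_of_mem (show n ∈ glue C j B from Or.inl ⟨h, hc⟩)]
  · rw [indicator_of_notMem hc, indicator_of_notMem]
    rintro (h' | h')
    · exact hc h'.2
    · omega

lemma ind_glue_ge (C B : Set ℕ) {j n : ℕ} (h : j ≤ n) :
    (glue C j B).indicator x n = B.indicator x n := by
  by_cases hc : n ∈ B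
  · rw [indicator_of_mem hc, indicator_of_mem (show n ∈ glue C j B from Or.inr ⟨h, hc⟩)]
  · rw [indicator_of_notMem hc, indicator_of_notMem]
    rintro (h' | h')
    · omega
    · exact hc h'.2

lemma P_glue (C B : Set ℕ) {j N : ℕ} (h : j ≤ N) :
    P x (glue C j B) N = P x B N - P x B j + P x C j := by
  induction N, h using Nat.le_induction with
  | base =>
    rw [sub_self, zero_add]
    exact Finset.sum_congr rfl fun n hn => ind_glue_lt C B (Finset.mem_range.1 hn)
  | succ N h ih =>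
    unfold P at ih ⊢
    rw [Finset.sum_range_succ, ih, ind_glue_ge C B h, Finset.sum_range_succ (n := N)]
    ring

lemma conv_glue (C : Set ℕ) (j : ℕ) {B : Set ℕ} {s : ℝ} (h : Tendsto (P x B) atTop (𝓝 s)) :
    Tendsto (P x (glue C j B)) atTop (𝓝 (s - P x B j + P x C j)) :=
  ((h.sub_const _).add_const _).congr' <|
    (eventually_ge_atTop j).mono fun _ hN => (P_glue C B hN).symm

lemma finP (j : ℕ) : (range fun C => P x C j).Finite := by
  classical
  refine ((Finset.range j).powerset.finite_toSet.image fun D => ∑ n ∈ D, x n).subset ?_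
  rintro _ ⟨C, rfl⟩
  refine ⟨(Finset.range j).filter (· ∈ C),
    Finset.mem_coe.2 (Finset.mem_powerset.2 (Finset.filter_subset _ _)), ?_⟩
  simp only [P, Finset.sum_filter, indicator_apply]

lemma transl {S : Set ℝ} (h : IsMeagre S) (c : ℝ) : IsMeagre {s | s + c ∈ S} :=
  h.preimage_of_isOpenMap (f := fun s => s + c) (continuous_add_const c) (isOpenMap_add_right c)

/-- The case of a dense interior. -/
lemma caseD {I : Set (Set ℕ)} (hI : IsIdeal I)
    (hD : ach x univ ⊆ closure (interior (ach x univ))) (W : Set (ach x univ)) (hW : IsOpen W)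
    (hne : W.Nonempty) (hM : IsMeagre (Subtype.val ⁻¹' ach x I ∩ W)) :
    IsMeagre (Subtype.val ⁻¹' ach x I : Set (ach x univ)) := by
  obtain ⟨V, hV, rfl⟩ := isOpen_induced_iff.1 hW
  obtain ⟨w, hw⟩ := hne
  obtain ⟨z, hzV, hzi⟩ := mem_closure_iff.1 (hD w.2) V hV hw
  obtain ⟨ρ, hρ, hball⟩ := Metric.isOpen_iff.1 (hV.inter isOpen_interior) z ⟨hzV, hzi⟩
  have h1 : IsMeagre (ach x I ∩ Metric.ball z ρ) := by
    refine hM.image_val.mono ?_
    rintro s ⟨hs, hs'⟩
    exact ⟨⟨s, interior_subset (hball hs').2⟩, ⟨hs, (hball hs').1⟩, rfl⟩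
  have h2 : IsMeagre (ach x I) := by
    obtain ⟨C, -, hC⟩ := interior_subset hzi
    have : IsMeagre (⋃ j : ℕ, ⋃ c ∈ range fun B => P x B j,
        {s | s + (P x C j - c) ∈ ach x I ∩ Metric.ball z ρ}) :=
      isMeagre_iUnion fun j => isMeagre_biUnion (finP j).countable fun c _ => transl h1 _
    refine this.mono ?_
    rintro s ⟨B, hB, hs⟩
    have e1 := Metric.tendsto_nhds.1 hC (ρ / 2) (by linarith)
    have e2 := Metric.tendsto_nhds.1 hs (ρ / 2) (by linarith)
    obtain ⟨j, a1, a2⟩ := (e1.and e2).exists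
    simp only [mem_iUnion]
    refine ⟨j, P x B j, ⟨B, rfl⟩, ⟨glue C j B, glue_mem hI hB C j, ?_⟩, ?_⟩
    · convert conv_glue C j hs using 2
      ring
    · rw [Metric.mem_ball]
      rw [Real.dist_eq, abs_lt] at a1 a2 ⊢
      constructor <;> linarith [a1.1, a1.2, a2.1, a2.2]
  have h3 : IsMeagre (Subtype.val ⁻¹' ach x I : Set (interior (ach x univ))) :=
    h2.preimage_of_isOpenMap continuous_subtype_val isOpen_interior.isOpenMap_subtype_val
  have h4 := (IsEmbedding.inclusion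
    (interior_subset (s := ach x univ))).isInducing.isMeagre_image h3
  have h5 : IsMeagre (Subtype.val ⁻¹' interior (ach x univ) : Set (ach x univ))ᶜ := by
    rw [IsMeagre, compl_compl]
    refine residual_of_dense_open (isOpen_interior.preimage continuous_subtype_val) ?_
    rw [Subtype.dense_iff]
    refine hD.trans (closure_mono fun s hs => ⟨⟨s, interior_subset hs⟩, hs, rfl⟩)
  refine (h5.union h4).mono fun a ha => ?_
  by_cases h : a.1 ∈ interior (ach x univ)
  · exact Or.inr ⟨⟨a.1, h⟩, ha, rfl⟩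
  · exact Or.inl h

lemma riemann (h0 : Tendsto x atTop (𝓝 0)) (hs : ¬ Summable fun n => max (x n) 0) (t : ℝ)
    (ht : 0 ≤ t) : ∃ B, Tendsto (P x B) atTop (𝓝 t) := by
  classical
  let S : ℕ → ℝ := fun n => Nat.rec 0 (fun n s => if 0 ≤ x n ∧ s + x n ≤ t then s + x n else s) n
  have hS : ∀ n, S (n + 1) = if 0 ≤ x n ∧ S n + x n ≤ t then S n + x n else S n := fun n => rfl
  have hP : P x {n | 0 ≤ x n ∧ S n + x n ≤ t} = S := by
    funext N
    induction N with
    | zero => simp [P, S]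
    | succ N ih =>
      unfold P at ih ⊢
      rw [Finset.sum_range_succ, ih, hS, indicator_apply]
      simp only [mem_ofPred_eq]
      split_ifs <;> simp
  have hmono : Monotone S := monotone_nat_of_le_succ fun n => by
    rw [hS]; split_ifs with h
    · linarith [h.1]
    · exact le_rfl
  have hle : ∀ n, S n ≤ t := fun n => by
    induction n with
    | zero => exact ht
    | succ n ih =>
      rw [hS]; split_ifs with h
      · exact h.2
      · exact ih
  have hbdd : BddAbove (range S) := ⟨t, by rintro _ ⟨n, rfl⟩; exact hle n⟩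
  refine ⟨{n | 0 ≤ x n ∧ S n + x n ≤ t}, ?_⟩
  rw [hP]
  have hlim := tendsto_atTop_ciSup hmono hbdd
  have hL : ⨆ n, S n = t := by
    by_contra hne
    have hlt : ⨆ n, S n < t := lt_of_le_of_ne (ciSup_le hle) hne
    obtain ⟨K, hK⟩ := eventually_atTop.1 (h0.eventually (gt_mem_nhds (sub_pos.2 hlt)))
    apply hs
    rw [← summable_nat_add_iff K]
    refine summable_of_sum_range_le (c := t - S K) (fun n => le_max_right _ _) fun N => ?_
    have : ∀ N, ∑ i ∈ Finset.range N, max (x (i + K)) 0 = S (N + K) - S K := by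
      intro N
      induction N with
      | zero => simp
      | succ N ih =>
        rw [Finset.sum_range_succ, ih, show N + 1 + K = N + K + 1 by ring, hS]
        have a1 := hK (N + K) (by omega)
        have a2 := le_ciSup hbdd (N + K)
        split_ifs with h
        · rw [max_eq_left h.1]; ring
        · rw [max_eq_right]
          · ring
          · by_contra hc
            exact h ⟨by linarith, by linarith⟩
    rw [this]
    linarith [hle (N + K)]
  rwa [hL] at hlim

lemma P_univ (N : ℕ) : P x univ N = ∑ n ∈ Finset.range N, x n := by simp [P]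

lemma not_summ {s : ℝ} (hx : Tendsto (fun N => ∑ n ∈ Finset.range N, x n) atTop (𝓝 s))
    (hs : ¬ Summable x) : ¬ Summable fun n => max (x n) 0 := by
  intro h
  have h1 := h.hasSum.tendsto_sum_nat.sub hx
  have h2 : HasSum (fun n => max (x n) 0 - x n) (∑' n, max (x n) 0 - s) := by
    rw [hasSum_iff_tendsto_nat_of_nonneg fun n => sub_nonneg.2 (le_max_left _ _)]
    simpa only [Finset.sum_sub_distrib] using h1
  apply hs
  simpa using h.sub h2.summable

lemma ach_univ {s : ℝ} (hx : Tendsto (fun N => ∑ n ∈ Finset.range N, x n) atTop (𝓝 s))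
    (hs : ¬ Summable x) : ach x univ = univ := by
  have h0 : Tendsto x atTop (𝓝 0) := by
    have := ((tendsto_add_atTop_iff_nat 1).2 hx).sub hx
    simpa [Finset.sum_range_succ] using this
  refine eq_univ_of_forall fun t => ?_
  rcases le_total 0 t with ht | ht
  · obtain ⟨B, hB⟩ := riemann h0 (not_summ hx hs) t ht
    exact ⟨B, trivial, hB⟩
  · obtain ⟨B, hB⟩ := riemann (x := fun n => -x n) (by simpa using h0.neg)
      (not_summ (s := -s) (by simpa using hx.neg) fun h => hs (by simpa using h.neg)) (-t)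
      (by linarith)
    refine ⟨B, trivial, ?_⟩
    have := hB.neg
    rw [neg_neg] at this
    refine this.congr fun N => ?_
    simp only [P, ← Finset.sum_neg_distrib]
    refine Finset.sum_congr rfl fun n _ => ?_
    by_cases h : n ∈ B <;> simp [h]

noncomputable def φ (x : ℕ → ℝ) (B : Set ℕ) : ℝ := ∑' n, B.indicator x n

noncomputable def ρ (x : ℕ → ℝ) (j : ℕ) : ℝ := ∑' n, |x (n + j)|

noncomputable def ψ (x : ℕ → ℝ) (j : ℕ) (ε : ℕ → Bool) : ℝ := ∑' n, if ε n then x (n + j) else 0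

section l1
variable (hx : Summable x)
include hx

lemma conv_φ (B : Set ℕ) : Tendsto (P x B) atTop (𝓝 (φ x B)) :=
  (hx.indicator B).hasSum.tendsto_sum_nat

lemma mem_ach {F : Set (Set ℕ)} {s : ℝ} : s ∈ ach x F ↔ ∃ B ∈ F, φ x B = s :=
  ⟨fun ⟨B, hB, h⟩ => ⟨B, hB, tendsto_nhds_unique (conv_φ hx B) h⟩,
    fun ⟨B, hB, h⟩ => ⟨B, hB, h ▸ conv_φ hx B⟩⟩

lemma φ_glue (C : Set ℕ) (j : ℕ) (B : Set ℕ) : φ x (glue C j B) = φ x B - P x B j + P x C j :=
  tendsto_nhds_unique (conv_φ hx _) (conv_glue C j (conv_φ hx B))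

lemma φ_split (B : Set ℕ) (j : ℕ) : φ x B = P x B j + ∑' n, B.indicator x (n + j) :=
  ((hx.indicator B).sum_add_tsum_nat_add j).symm

lemma summ_abs (j : ℕ) : Summable fun n => |x (n + j)| :=
  ((summable_nat_add_iff j).2 hx).abs

lemma tail_le (B : Set ℕ) (j : ℕ) : |φ x B - P x B j| ≤ ρ x j := by
  rw [φ_split hx B j, add_sub_cancel_left]
  rw [← Real.norm_eq_abs]
  refine tsum_of_norm_bounded (summ_abs hx j).hasSum fun n => ?_
  by_cases h : n + j ∈ B <;> simp [h]

omit hx in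
lemma ρ_small (η : ℝ) (hη : 0 < η) : ∃ J, ∀ j, J ≤ j → 2 * ρ x j < η := by
  have := tendsto_sum_nat_add fun n => |x n|
  obtain ⟨J, hJ⟩ := eventually_atTop.1 (this.eventually (gt_mem_nhds (half_pos hη)))
  exact ⟨J, fun j hj => by have := hJ j hj; unfold ρ; linarith⟩

lemma T_compact (j : ℕ) : IsCompact (range (ψ x j)) := by
  apply isCompact_range
  refine continuous_tsum (fun i => ?_) (summ_abs hx j) fun i ε => ?_
  · exact (continuous_of_discreteTopology
      (f := fun b : Bool => if b then x (i + j) else 0)).comp (continuous_apply i)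
  · cases ε i <;> simp

lemma tail_mem (B : Set ℕ) (j : ℕ) : φ x B - P x B j ∈ range (ψ x j) := by
  classical
  refine ⟨fun n => decide (n + j ∈ B), ?_⟩
  rw [φ_split hx B j, add_sub_cancel_left]
  refine tsum_congr fun n => ?_
  by_cases h : n + j ∈ B <;> simp [h]

lemma of_tail {j : ℕ} {y : ℝ} (hy : y ∈ range (ψ x j)) : ∃ B, y = φ x B - P x B j := by
  obtain ⟨ε, rfl⟩ := hy
  refine ⟨{n | ε (n - j) = true}, ?_⟩
  rw [φ_split hx _ j, add_sub_cancel_left]
  refine tsum_congr fun n => ?_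
  by_cases h : ε n = true <;> simp [h]

lemma A_compact : IsCompact (ach x univ) := by
  have : ach x univ = range (ψ x 0) := by
    ext s
    rw [mem_ach hx]
    constructor
    · rintro ⟨B, -, rfl⟩
      simpa [P] using tail_mem hx B 0
    · intro h
      obtain ⟨B, hB⟩ := of_tail hx h
      exact ⟨B, trivial, by simpa [P] using hB.symm⟩
  rw [this]; exact T_compact hx 0

lemma dense_int (hne : (interior (ach x univ)).Nonempty) :
    ach x univ ⊆ closure (interior (ach x univ)) := by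
  intro a ha
  obtain ⟨B, -, rfl⟩ := (mem_ach hx).1 ha
  rw [Metric.mem_closure_iff]
  intro η hη
  obtain ⟨j, hj⟩ := ρ_small (x := x) η hη
  have hT : (interior (range (ψ x j))).Nonempty := by
    by_contra hc
    rw [not_nonempty_iff_eq_empty] at hc
    have h1 : IsMeagre (range (ψ x j)) :=
      ((T_compact hx j).isClosed.isNowhereDense_iff.2 hc).isMeagre
    have h2 : IsMeagre (⋃ c ∈ range fun B => P x B j, {s | s + (-c) ∈ range (ψ x j)}) :=
      isMeagre_biUnion (finP j).countable fun c _ => transl h1 _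
    refine not_isMeagre_of_isOpen isOpen_interior hne (h2.mono fun s hs => ?_)
    obtain ⟨C, -, rfl⟩ := (mem_ach hx).1 (interior_subset hs)
    simp only [mem_iUnion]
    exact ⟨P x C j, ⟨C, rfl⟩, by simpa [sub_eq_add_neg] using tail_mem hx C j⟩
  obtain ⟨y, hy⟩ := hT
  have hsub : (fun s => s - P x B j) ⁻¹' interior (range (ψ x j)) ⊆ ach x univ := by
    intro s hs
    obtain ⟨C, hC⟩ := of_tail hx (interior_subset hs)
    refine (mem_ach hx).2 ⟨glue B j C, trivial, ?_⟩
    rw [φ_glue hx, ← hC]; ring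
  refine ⟨y + P x B j, interior_maximal hsub
    (isOpen_interior.preimage (continuous_id.sub continuous_const)) (by simpa using hy), ?_⟩
  obtain ⟨C, hC⟩ := of_tail hx (interior_subset hy)
  have a1 := abs_le.1 (tail_le hx B j)
  have a2 := abs_le.1 (tail_le hx C j)
  have a3 := hj j le_rfl
  rw [Real.dist_eq, abs_lt]
  constructor <;> linarith [a1.1, a1.2, a2.1, a2.2]

lemma low_le (B : Set ℕ) (j : ℕ) : φ x (glue B j {n | x n < 0}) ≤ φ x B := by
  refine (hx.indicator _).tsum_le_tsum (fun n => ?_) (hx.indicator _)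
  rcases lt_or_ge n j with h | h
  · rw [ind_glue_lt _ _ h]
  · rw [ind_glue_ge _ _ h]
    by_cases h1 : n ∈ B <;> by_cases h2 : x n < 0 <;> simp [h1, h2] <;> linarith

lemma gapL {g γ : ℝ} (hγ : 0 < γ) (hg : ∀ a ∈ ach x univ, a < g → a ≤ g - γ) :
    ∃ J, ∀ j, J ≤ j → ∃ δ > 0, ∀ B, g ≤ φ x B → φ x B < g + δ →
      φ x (glue B j {n | x n < 0}) = g := by
  obtain ⟨J, hJ⟩ := ρ_small (x := x) γ hγ
  refine ⟨J, fun j hj => ?_⟩
  have hfin : (range fun B => φ x (glue B j {n | x n < 0})).Finite := by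
    refine ((finP (x := x) j).image
      fun c => φ x {n | x n < 0} - P x {n | x n < 0} j + c).subset ?_
    rintro _ ⟨B, rfl⟩
    exact ⟨_, ⟨B, rfl⟩, (φ_glue hx _ _ _).symm⟩
  have hδ : ∃ δ > 0, ∀ B, g < φ x (glue B j {n | x n < 0}) →
      g + δ ≤ φ x (glue B j {n | x n < 0}) := by
    by_cases hne : ((range fun B => φ x (glue B j {n | x n < 0})) ∩ Ioi g).Nonempty
    · obtain ⟨m, hm, hmin⟩ := exists_min_image _ id (hfin.inter_of_left (Ioi g)) hne
      refine ⟨m - g, sub_pos.2 hm.2, fun B hB => ?_⟩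
      have := hmin _ ⟨⟨B, rfl⟩, hB⟩
      simp only [id] at this
      linarith
    · exact ⟨1, one_pos, fun B hB => absurd ⟨_, ⟨B, rfl⟩, hB⟩ hne⟩
  obtain ⟨δ, hδ0, hδ⟩ := hδ
  refine ⟨δ, hδ0, fun B h1 h2 => ?_⟩
  have a0 := low_le hx B j
  rcases lt_trichotomy (φ x (glue B j {n | x n < 0})) g with h | h | h
  · have a1 := hg _ ((mem_ach hx).2 ⟨_, trivial, rfl⟩) h
    have a2 := abs_le.1 (tail_le hx B j)
    have a3 := abs_le.1 (tail_le hx {n | x n < 0} j)
    have a4 := hJ j hj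
    rw [φ_glue hx] at a1
    linarith [a2.1, a2.2, a3.1, a3.2]
  · exact h
  · linarith [hδ B h]

lemma transfer {g γ g' γ' : ℝ} (hγ : 0 < γ) (hg : ∀ a ∈ ach x univ, a < g → a ≤ g - γ)
    (hγ' : 0 < γ') (hg' : ∀ a ∈ ach x univ, a < g' → a ≤ g' - γ') (hA : g' ∈ ach x univ) :
    ∃ δ > 0, ∀ t, 0 ≤ t → t < δ → ∀ B, φ x B = g + t → ∃ C j, φ x (glue C j B) = g' + t := by
  obtain ⟨J, hJ⟩ := gapL hx hγ hg
  obtain ⟨J', hJ'⟩ := gapL hx hγ' hg'
  obtain ⟨δ, hδ, h1⟩ := hJ (max J J') (le_max_left _ _)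
  obtain ⟨δ', hδ', h2⟩ := hJ' (max J J') (le_max_right _ _)
  obtain ⟨C, -, hC⟩ := (mem_ach hx).1 hA
  refine ⟨δ, hδ, fun t ht0 ht B hB => ⟨C, max J J', ?_⟩⟩
  have a1 := h1 B (by linarith) (by linarith)
  have a2 := h2 C (by linarith) (by linarith)
  rw [φ_glue hx] at a1 a2 ⊢
  linarith

lemma gap_dense (he : interior (ach x univ) = ∅) {a : ℝ} (ha : a ∈ ach x univ) {η : ℝ}
    (hη : 0 < η) : ∃ g ∈ ach x univ, a - η < g ∧ g ≤ a ∧
      ∃ γ > 0, ∀ b ∈ ach x univ, b < g → b ≤ g - γ := by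
  have : ∃ z, a - η < z ∧ z < a ∧ z ∉ ach x univ := by
    by_contra hc
    push Not at hc
    have : a - η / 2 ∈ interior (ach x univ) :=
      interior_maximal (t := Ioo (a - η) a) (fun z hz => hc z hz.1 hz.2) isOpen_Ioo
        ⟨by linarith, by linarith⟩
    rw [he] at this
    exact this
  obtain ⟨z, h1, h2, h3⟩ := this
  obtain ⟨c, ⟨hcE, hcz⟩, hmin⟩ :=
    ((A_compact hx).inter_right (isClosed_Ici (a := z))).exists_isLeast ⟨a, ha, h2.le⟩
  have hzc : z < c := lt_of_le_of_ne hcz fun h => h3 (h ▸ hcE)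
  refine ⟨c, hcE, by linarith, hmin ⟨ha, h2.le⟩, c - z, by linarith, fun y hy h => ?_⟩
  by_contra hh
  have := hmin ⟨hy, show z ≤ y by linarith⟩
  linarith

/-- The case of an empty interior. -/
lemma caseN {I : Set (Set ℕ)} (hI : IsIdeal I) (he : interior (ach x univ) = ∅)
    (W : Set (ach x univ)) (hW : IsOpen W)
    (hne : W.Nonempty) (hM : IsMeagre (Subtype.val ⁻¹' ach x I ∩ W)) :
    IsMeagre (Subtype.val ⁻¹' ach x I : Set (ach x univ)) := by
  obtain ⟨w, hw⟩ := hne
  obtain ⟨η, hη, hball⟩ := Metric.isOpen_iff.1 hW w hw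
  obtain ⟨g, hgA, hg1, hg2, γ, hγ, hg⟩ := gap_dense hx he w.2 hη
  let Z : Set (ach x univ) := {a | ∃ U ∈ 𝓝 a, IsMeagre (Subtype.val ⁻¹' ach x I ∩ U)}
  have hZo : IsOpen Z := by
    rw [isOpen_iff_mem_nhds]
    rintro a ⟨U, hU, hm⟩
    exact (eventually_mem_nhds_iff.2 hU).mono fun b hb => ⟨U, hb, hm⟩
  have hgap : ∀ g' (hg'A : g' ∈ ach x univ), (∃ γ' > 0, ∀ b ∈ ach x univ, b < g' → b ≤ g' - γ') →
      (⟨g', hg'A⟩ : ach x univ) ∈ Z := by
    rintro g' hg'A ⟨γ', hγ', hg'⟩
    obtain ⟨δ1, hδ1, t1⟩ := transfer hx hγ hg hγ' hg' hg'A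
    obtain ⟨δ2, hδ2, t2⟩ := transfer hx hγ' hg' hγ hg hgA
    set δ := min (min δ1 δ2) η with hδ
    have d0 : 0 < δ := lt_min (lt_min hδ1 hδ2) hη
    have d1 : δ ≤ δ1 := (min_le_left _ _).trans (min_le_left _ _)
    have d2 : δ ≤ δ2 := (min_le_left _ _).trans (min_le_right _ _)
    have d3 : δ ≤ η := min_le_right _ _
    let Y : Set ℝ := {t | 0 ≤ t ∧ t < δ ∧ g + t ∈ ach x univ}
    let h : Y → ach x univ := fun t => ⟨g + t, t.2.2.2⟩
    have hY : ∀ t : Y, g' + t ∈ ach x univ := fun t => by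
      obtain ⟨B, -, hB⟩ := (mem_ach hx).1 t.2.2.2
      obtain ⟨C, j, hC⟩ := t1 t t.2.1 (t.2.2.1.trans_le d1) B hB
      exact (mem_ach hx).2 ⟨_, trivial, hC⟩
    let h' : Y → ach x univ := fun t => ⟨g' + t, hY t⟩
    have i1 : Isometry h := Isometry.of_dist_eq fun s t => by simp [h, Subtype.dist_eq]
    have i2 : Isometry h' := Isometry.of_dist_eq fun s t => by simp [h', Subtype.dist_eq]
    have hr : range h = Subtype.val ⁻¹' Ioo (g - γ) (g + δ) := by
      ext a
      constructor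
      · rintro ⟨t, rfl⟩
        exact ⟨show g - γ < g + t by linarith [t.2.1], show g + t < g + δ by linarith [t.2.2.1]⟩
      · rintro ⟨a1, a2⟩
        have a3 : g ≤ a.1 := by
          by_contra hc
          linarith [hg a.1 a.2 (not_le.1 hc)]
        exact ⟨⟨a.1 - g, by linarith, by linarith, by simp⟩, Subtype.ext (by simp [h])⟩
    have ho : IsOpenEmbedding h :=
      ⟨i1.isEmbedding, hr ▸ isOpen_Ioo.preimage continuous_subtype_val⟩
    have m1 := i2.isEmbedding.isInducing.isMeagre_image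
      (hM.preimage_of_isOpenMap ho.continuous ho.isOpenMap)
    refine ⟨Subtype.val ⁻¹' Ioo (g' - γ') (g' + δ), (isOpen_Ioo.preimage
      continuous_subtype_val).mem_nhds ⟨by linarith, by linarith⟩, m1.mono ?_⟩
    rintro a ⟨ha, a1, a2⟩
    have a3 : g' ≤ a.1 := by
      by_contra hc
      linarith [hg' a.1 a.2 (not_le.1 hc)]
    obtain ⟨B, hB, hB'⟩ := (mem_ach hx).1 ha
    obtain ⟨C, j, hC⟩ := t2 (a.1 - g') (by linarith) (by linarith) B (by rw [hB']; ring)
    refine ⟨⟨a.1 - g', by linarith, by linarith, (mem_ach hx).2 ⟨_, trivial, hC⟩⟩,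
      ⟨(mem_ach hx).2 ⟨_, glue_mem hI hB C j, hC⟩, hball ?_⟩, Subtype.ext (by simp [h'])⟩
    rw [Metric.mem_ball, Subtype.dist_eq, Real.dist_eq, abs_lt]
    constructor
    · show -η < g + (a.1 - g') - w
      linarith
    · show g + (a.1 - g') - w < η
      linarith
  have hZd : Dense Z := by
    rw [Metric.dense_iff]
    intro a r hr
    obtain ⟨g', hA, b1, b2, hg'⟩ := gap_dense hx he a.2 hr
    refine ⟨⟨g', hA⟩, ?_, hgap g' hA hg'⟩
    rw [Metric.mem_ball, Subtype.dist_eq, Real.dist_eq, abs_lt]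
    constructor
    · show -r < g' - a
      linarith
    · show g' - a < r
      linarith
  have hch : ∀ a : ach x univ, ∃ U, a ∈ Z → U ∈ 𝓝 a ∧ IsMeagre (Subtype.val ⁻¹' ach x I ∩ U) := by
    intro a
    by_cases h : a ∈ Z
    · obtain ⟨U, hU⟩ := h
      exact ⟨U, fun _ => hU⟩
    · exact ⟨∅, fun h' => absurd h' h⟩
  choose f hf using hch
  obtain ⟨t, htZ, htc, hcov⟩ := TopologicalSpace.countable_cover_nhdsWithin (s := Z) (f := f)
    fun a ha => mem_nhdsWithin_of_mem_nhds (hf a ha).1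
  have m1 : IsMeagre Zᶜ := by
    rw [IsMeagre, compl_compl]; exact residual_of_dense_open hZo hZd
  refine (m1.union (isMeagre_biUnion htc fun a ha => (hf a (htZ ha)).2)).mono fun a ha => ?_
  by_cases h : a ∈ Z
  · right
    have := hcov h
    simp only [mem_iUnion] at this ⊢
    obtain ⟨b, hb, hab⟩ := this
    exact ⟨b, hb, ha, hab⟩
  · exact Or.inl h

end l1

theorem result (I : Set (Set ℕ)) (hI : IsIdeal I) (x : ℕ → ℝ)
    (hx : ∃ s, Tendsto (fun N => ∑ n ∈ Finset.range N, x n) atTop (𝓝 s))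
    (hB : BaireMeasurableSet (Subtype.val ⁻¹' ach x I : Set (ach x univ))) :
    IsMeagre (Subtype.val ⁻¹' ach x I : Set (ach x univ)) ∨
      (Subtype.val ⁻¹' ach x I : Set (ach x univ)) ∈ residual (ach x univ) := by
  obtain ⟨G, hG, hGe⟩ := hB.residualEq_isOpen
  by_cases hd : Dense G
  · right
    filter_upwards [EventuallyEq.mem_iff hGe, residual_of_dense_open hG hd] with a ha h
    exact ha.2 h
  left
  have hne : (closure G)ᶜ.Nonempty := by
    rw [nonempty_compl]
    exact fun h => hd (dense_iff_closure_eq.2 h)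
  have hM : IsMeagre (Subtype.val ⁻¹' ach x I ∩ (closure G)ᶜ : Set (ach x univ)) := by
    rw [IsMeagre]
    filter_upwards [EventuallyEq.mem_iff hGe] with a ha
    rintro ⟨h1, h2⟩
    exact h2 (subset_closure (ha.1 h1))
  have hW : IsOpen (closure G)ᶜ := isClosed_closure.isOpen_compl
  by_cases hs : Summable x
  · rcases (interior (ach x univ)).eq_empty_or_nonempty with he | he
    · exact caseN hs hI he _ hW hne hM
    · exact caseD hI (dense_int hs he) _ hW hne hM
  · obtain ⟨s, hx⟩ := hx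
    refine caseD hI ?_ _ hW hne hM
    rw [ach_univ hx hs]
    simp

end Pool.Agent.Results.MP_dc2775_an.ZeroOne
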